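import Pool.Agent.Helper12.MA.StD
import Pool.Agent.Helper12.MA.Lib

/-!
# Project MA, module DGC
-/

set_option autoImplicit false

namespace Pool.Agent.Helper8.MA

open Pool.Agent.Helper12.MA
open Pool.Agent.Helper51.AJ (IsMinor Planar Apex ExMinor Con Tch)
open Pool.Agent.Helper12.NK (rst Kc add cnt Pcy IsFace Cof plus)

private theorem minor_mono {W V : Type} {A : SimpleGraph W} {H K : SimpleGraph V}
    (h : ∀ a b, H.Adj a b → K.Adj a b) (hA : IsMinor A H) : IsMinor A K := by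
  obtain ⟨φ, h1, h2, h3⟩ := hA
  refine ⟨φ, fun w => (h1 w).mono ?_, h2, fun w w' hw => ?_⟩
  · intro a b hab
    exact h _ _ hab
  · obtain ⟨x, hx, y, hy, hxy⟩ := h3 w w' hw
    exact ⟨x, hx, y, hy, h _ _ hxy⟩

private theorem planar_mono {V : Type} {H K : SimpleGraph V}
    (h : ∀ a b, H.Adj a b → K.Adj a b) (hK : Planar K) : Planar H :=
  ⟨fun k => hK.1 (minor_mono h k), fun k => hK.2 (minor_mono h k)⟩

private theorem con_of {V : Type} {G K : SimpleGraph V} {U S : Set V}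
    (h : ∀ a ∈ U, ∀ b ∈ U, (G.Adj a b ↔ K.Adj a b)) (hS : S ⊆ U) (hG : Con G S) : Con K S := by
  have e : G.induce S = K.induce S := by
    ext a b
    exact h a.1 (hS a.2) b.1 (hS b.2)
  unfold Pool.Agent.Helper51.AJ.Con at hG ⊢
  rw [← e]
  exact hG

private theorem kc_of {V : Type} {k : ℕ} {G K : SimpleGraph V} {U : Set V}
    (h : ∀ a ∈ U, ∀ b ∈ U, (G.Adj a b ↔ K.Adj a b)) (hG : Kc k G U) : Kc k K U :=
  ⟨hG.1, fun X hX => con_of h Set.sdiff_subset (hG.2 X hX)⟩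

private theorem face_of {V : Type} {G K : SimpleGraph V} {U F : Set V}
    (h : ∀ a ∈ U, ∀ b ∈ U, (G.Adj a b ↔ K.Adj a b)) (hG : IsFace G U F) : IsFace K U F := by
  obtain ⟨m, c, ⟨h1, h2, h3, h4, h5⟩, hF⟩ := hG
  refine ⟨m, c, ⟨h1, h2, h3, fun i j => ?_, con_of h Set.sdiff_subset h5⟩, hF⟩
  rw [← h _ (h3 ⟨i, rfl⟩) _ (h3 ⟨j, rfl⟩)]
  exact h4 i j

theorem hDGC : StFNB → StMRG → StBAS → StCRT → StDGC := by
  intro hFNB hMRG hBAS hCRT V _ G s x y σ hG hxy hS hD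
  obtain ⟨hsx, hsy, hpl⟩ := hS
  obtain ⟨a, b, hN, hab, hay, has, haσ, hby, hbs, hbσ, F, hF, hyF, haF, hbF⟩ := hD
  obtain ⟨_, h2, _, h4, h5, _, _⟩ := hBAS V G hG
  have hPn : Pn (dl G x y) {s}ᶜ := ⟨h5 s x y, hpl⟩
  have hset : ({s}ᶜ : Set V) \ {x} = {s, x}ᶜ := by
    ext t
    simp [not_or]
  have hag : ∀ c ∈ ({s, x}ᶜ : Set V), ∀ d ∈ ({s, x}ᶜ : Set V), (G.Adj c d ↔ (dl G x y).Adj c d) := by
    intro c hc d hd
    have hcx : c ≠ x := fun e => hc (by simp [e])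
    have hdx : d ≠ x := fun e => hd (by simp [e])
    exact ⟨fun k => ⟨k, fun e => hcx e.1, fun e => hdx e.2⟩, fun k => k.1⟩
  have hag' : ∀ c ∈ ({s, x}ᶜ : Set V), ∀ d ∈ ({s, x}ᶜ : Set V),
      ((dl G x y).Adj c d ↔ G.Adj c d) := fun c hc d hd => (hag c hc d hd).symm
  have hxU : x ∈ ({s}ᶜ : Set V) := fun e => hsx (Set.mem_singleton_iff.1 e).symm
  have hK : Kc 3 (dl G x y) ({s}ᶜ \ {x}) := by
    rw [hset]
    exact kc_of hag (h2 s x)
  obtain ⟨m1, -, -⟩ := hMRG V (dl G x y) {s}ᶜ x hPn hxU hK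
  rw [hset] at m1
  have m2 := face_of hag' m1
  have hfin : ∀ t₁ t₂ t₃ t₄ : V, ¬ {c | G.Adj x c} ⊆ ({t₁, t₂, t₃, t₄} : Set V) := by
    intro t₁ t₂ t₃ t₄ hsub
    have h1 := Set.ncard_le_ncard hsub (Set.toFinite _)
    have h3 : ({t₁, t₂, t₃, t₄} : Set V).ncard ≤ 4 := by
      refine (Set.ncard_insert_le _ _).trans (Nat.succ_le_succ ?_)
      refine (Set.ncard_insert_le _ _).trans (Nat.succ_le_succ ?_)
      refine (Set.ncard_insert_le _ _).trans (Nat.succ_le_succ ?_)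
      exact (Set.ncard_singleton _).le
    have h6 := h4 x
    omega
  have hσy : σ ≠ y := by
    intro e
    refine hfin y s a b ?_
    intro c hc
    rcases (hN c).1 hc with k | k | k | k | k <;> simp [k, e]
  have hσs : σ ≠ s := by
    intro e
    refine hfin y s a b ?_
    intro c hc
    rcases (hN c).1 hc with k | k | k | k | k <;> simp [k, e]
  have hpc : ({x, s}ᶜ : Set V) = {s, x}ᶜ := by rw [Set.pair_comm]
  rw [hpc] at hF
  have hpl' : Planar (rst G {s, x}ᶜ) := by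
    refine planar_mono ?_ hpl
    intro c d hcd
    obtain ⟨k1, k2, k3⟩ := hcd
    refine ⟨(hag c k2 d k3).1 k1, ?_, ?_⟩
    · intro e
      exact k2 (by simp [Set.mem_singleton_iff.1 e])
    · intro e
      exact k3 (by simp [Set.mem_singleton_iff.1 e])
  obtain ⟨p, q, hpq⟩ := hCRT V G x s σ y F {t | t ≠ x ∧ Cof (dl G x y) {s}ᶜ x t} hG hsx hpl'
    ((hN σ).2 (Or.inr (Or.inr (Or.inl rfl)))) hxy hσs hsy.symm hσy hF m2 (by
      rintro c ⟨hc, hc'⟩
      rcases (hN c).1 hc with k | k | k | k | k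
      · rw [k]; exact hyF
      · exact absurd (by simp [k]) hc'
      · exact absurd (by simp [k]) hc'
      · rw [k]; exact haF
      · rw [k]; exact hbF) (by
      rintro c ⟨hc, hc'⟩
      have hcs : c ≠ s := fun e => hc' (by simp [e])
      have hcy : c ≠ y := fun e => hc' (by simp [e])
      have hcx : c ≠ x := (G.ne_of_adj hc).symm
      refine ⟨hcx, ?_⟩
      refine (hFNB V (dl G x y) {s}ᶜ hPn).2.2.2.2.2 x hxU c (fun e => hcs (Set.mem_singleton_iff.1 e)) ?_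
      exact ⟨hc, fun e => hcy e.2, fun e => hcx e.2⟩)
  exact ⟨p, q, σ, y, hpq⟩

end Pool.Agent.Helper8.MA
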